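import Pool.Agent.Y224.AZ.Stm

/-!
# Logarithms of operators exist
-/

namespace Pool.Agent.Y624.AZ

open Module Pool.Agent.Y224.AZ

theorem t_logex : Pool.Agent.Y224.AZ.S_LOGEX := by
  classical
  intro K Y _ _ _ _ _ _ G w hG
  let V : K → Submodule K Y := fun μ => G.maxGenEigenspace μ
  have hint : DirectSum.IsInternal V :=
    DirectSum.isInternal_submodule_of_iSupIndep_of_iSup_eq_top
      (Module.End.independent_maxGenEigenspace G) (Module.End.iSup_maxGenEigenspace_eq_top G)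
  let e : (DirectSum K fun μ => V μ) ≃ₗ[K] Y := LinearEquiv.ofBijective (DirectSum.coeLinearMap V) hint
  let c : K → K := fun μ =>
    if h : μ = 0 then 0 else ((w (Additive.ofMul (Units.mk0 μ h)) : ℚ) : K)
  let F : (DirectSum K fun μ => V μ) →ₗ[K] Y :=
    DirectSum.toModule K K Y (fun μ => c μ • (V μ).subtype)
  refine ⟨F.comp (e.symm : Y →ₗ[K] (DirectSum K fun μ => V μ)), ?_⟩
  intro a y hy
  have hy2 : y ∈ V (a : K) := hy
  have h1 : e (DirectSum.lof K K (fun μ => V μ) (a : K) ⟨y, hy2⟩) = y :=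
    DirectSum.coeLinearMap_lof V (a : K) ⟨y, hy2⟩
  have h2 : e.symm y = DirectSum.lof K K (fun μ => V μ) (a : K) ⟨y, hy2⟩ := by
    rw [LinearEquiv.symm_apply_eq]
    exact h1.symm
  have h3 : F.comp (e.symm : Y →ₗ[K] (DirectSum K fun μ => V μ)) y =
      F (DirectSum.lof K K (fun μ => V μ) (a : K) ⟨y, hy2⟩) := by
    rw [← h2]
    rfl
  rw [h3]
  have h4 : F (DirectSum.lof K K (fun μ => V μ) (a : K) ⟨y, hy2⟩) =
      (c (a : K) • (V (a : K)).subtype) ⟨y, hy2⟩ := DirectSum.toModule_lof K (a : K) _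
  rw [h4]
  have h5 : c (a : K) = ((w (Additive.ofMul a) : ℚ) : K) := by
    show (if h : (a : K) = 0 then (0 : K) else _) = _
    rw [dif_neg a.ne_zero, Units.mk0_val]
  rw [h5]
  rfl

end Pool.Agent.Y624.AZ
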